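import Mathlib

/-!
MP_dc5ea1_nt: 307 is not a sum of three generalized heptagonal numbers.
-/

set_option autoImplicit false

namespace Pool.Agent.Results.MP_dc5ea1_nt.AlsoThreeHundredSeven

/-- The generalized heptagonal number with index `r`. -/
def H (r : ℤ) : ℤ := r * (5 * r - 3) / 2

theorem two_mul_H (r : ℤ) : 2 * H r = r * (5 * r - 3) := by
  unfold H
  have h : (2 : ℤ) ∣ r * (5 * r - 3) := by
    rcases Int.even_or_odd r with h | h
    · exact (h.two_dvd).mul_right _
    · have : Even (5 * r - 3) := by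
        obtain ⟨k, hk⟩ := h
        exact ⟨5 * k + 1, by rw [hk]; ring⟩
      exact (this.two_dvd).mul_left _
  exact Int.mul_ediv_cancel' h

theorem H_nonneg (r : ℤ) : 0 ≤ H r := by
  have h := two_mul_H r
  have h2 : 0 ≤ r * (5 * r - 3) := by
    rcases le_or_gt r 0 with h1 | h1
    · nlinarith
    · have : 1 ≤ r := h1
      nlinarith
  linarith

theorem bounds {r : ℤ} (h : H r ≤ 307) : -10 ≤ r ∧ r ≤ 11 := by
  have h2 := two_mul_H r
  constructor
  · by_contra hc
    have h3 : r ≤ -11 := by omega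
    nlinarith
  · by_contra hc
    have h3 : 12 ≤ r := by omega
    nlinarith

theorem check : ∀ a ∈ Finset.Icc (-10 : ℤ) 11, ∀ b ∈ Finset.Icc (-10 : ℤ) 11,
    ∀ c ∈ Finset.Icc (-10 : ℤ) 11, H a + H b + H c ≠ 307 := by
  decide +kernel

/-- There is a natural number other than `10`, `16` and `76` that is not a sum of three
generalized heptagonal numbers, namely `307`. -/
theorem result : ∃ n : ℕ, n = 307 ∧ n ≠ 10 ∧ n ≠ 16 ∧ n ≠ 76 ∧
    ¬ ∃ a b c : ℤ, (n : ℤ) = H a + H b + H c := by
  refine ⟨307, rfl, by norm_num, by norm_num, by norm_num, ?_⟩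
  rintro ⟨a, b, c, h⟩
  have h' : H a + H b + H c = 307 := by rw [← h]; norm_num
  have ha := H_nonneg a
  have hb := H_nonneg b
  have hc := H_nonneg c
  have h1 := bounds (r := a) (by linarith)
  have h2 := bounds (r := b) (by linarith)
  have h3 := bounds (r := c) (by linarith)
  exact check a (Finset.mem_Icc.2 h1) b (Finset.mem_Icc.2 h2) c (Finset.mem_Icc.2 h3) h'

end Pool.Agent.Results.MP_dc5ea1_nt.AlsoThreeHundredSeven
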