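import Pool.Agent.Lib.MP_dc5ea1_nt.Uni
import Pool.Agent.Lib.MP_dc5ea1_nt.Three
import Pool.Agent.Lib.MP_dc5ea1_nt.Square
import Pool.Agent.Lib.MP_dc5ea1_nt.CaseD
import Pool.Agent.Lib.MP_dc5ea1_nt.CaseF

/-!
MP_dc5ea1_nt: infinite families of sums of three generalized heptagonal numbers (helper3, with
modules by helper57, helper72, helper19).
-/

set_option autoImplicit false

namespace Pool.Agent.Results.MP_dc5ea1_nt.ResidueClasses

open Pool.Agent.Lib.MP_dc5ea1_nt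

/-- The generalized heptagonal number with index `r`. -/
def H (r : ℤ) : ℤ := r * (5 * r - 3) / 2

/-- A natural number `n` is a sum of three generalized heptagonal numbers if
(i) `n ≡ 2 mod 3`, or (ii) `40 n + 27` is divisible by the square of a prime, or
(iii) `3 ∣ n` and (`n mod 7 ∈ {0, 4, 5}` or `n mod 11 ∈ {2, 5, 7, 8, 9}`), or
(iv) `n mod 7 ∈ {0, 3, 4, 5}` and `n mod 11 ∈ {2, 5, 7, 8, 9}`. -/
theorem result (n : ℕ)
    (h : n % 3 = 2 ∨ (∃ p : ℕ, p.Prime ∧ p ^ 2 ∣ 40 * n + 27) ∨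
      (n % 3 = 0 ∧ (n % 7 ∈ ({0, 4, 5} : Finset ℕ) ∨ n % 11 ∈ ({2, 5, 7, 8, 9} : Finset ℕ))) ∨
      (n % 7 ∈ ({0, 3, 4, 5} : Finset ℕ) ∧ n % 11 ∈ ({2, 5, 7, 8, 9} : Finset ℕ))) :
    ∃ a b c : ℤ, (n : ℤ) = H a + H b + H c := by
  have hthree : ThreeStmt := Three.three Uni.uni
  have hN : (0 : ℤ) < 40 * n + 27 := by positivity
  have h8 : (40 * (n : ℤ) + 27) % 8 = 3 := by omega
  have h5 : (40 * (n : ℤ) + 27) % 5 = 2 := by omega
  have hsq : ∀ p : ℕ, p.Prime → p ^ 2 ∣ 40 * n + 27 → ¬ Bad (40 * n + 27) := by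
    intro p hp hd
    refine Square.square hthree _ hN h8 h5 p hp ?_
    exact_mod_cast hd
  refine conv n ?_
  simp only [Finset.mem_insert, Finset.mem_singleton] at h
  rcases h with h | ⟨p, hp, hd⟩ | ⟨h3, h⟩ | ⟨h7, h11⟩
  · exact splitThree hthree hN h8 h5 (by omega)
  · exact hsq p hp hd
  · by_cases h9 : (40 * (n : ℤ) + 27) % 9 = 0
    · exact hsq 3 Nat.prime_three (by omega)
    · rcases h with h | h
      · exact caseD hthree hN h8 h5 (by omega) h9 (by omega)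
      · refine caseE hthree hN h8 h5 (by omega) h9 ?_
        unfold Sp11
        omega
  · refine caseF hthree hN h8 h5 ?_ ?_
    · unfold Sp7
      omega
    · unfold Sp11
      omega

end Pool.Agent.Results.MP_dc5ea1_nt.ResidueClasses
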